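import Pool.Agent.Helper81.RFCone.Proof

set_option autoImplicit false

namespace Pool.Agent.Results.MP_3d035a_gt.SecConeUnique

open Pool.Agent.Helper81.RFCone

/-- For `n ≥ 4` (in particular for every odd `n ≥ 5`) a set `C` is a Ricci flow invariant curvature
cone in `S²_B(Λ²ℝⁿ)` containing all operators with nonnegative sectional curvature if and only if
`C = C_scal = {scal ≥ 0}`. -/
theorem result (n : ℕ) (hn : 4 ≤ n) (C : Set (Tensor4 n)) :
    (IsCurvatureCone n C ∧ RicciFlowInvariant n C ∧
      ∀ R : Tensor4 n, IsCurvOp R → HasNonnegSec R → R ∈ C) ↔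
    C = {R : Tensor4 n | IsCurvOp R ∧ 0 ≤ scal R} :=
  main_iff hn C

end Pool.Agent.Results.MP_3d035a_gt.SecConeUnique
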